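import Pool.Agent.Helper63.Hyp6.Main

namespace Pool.Agent.Results.MP_cb21b9_gt.AllNegative

open Pool.Agent.Helper63.Hyp6

theorem result : ∀ n : ℕ, 1 ≤ n → ∃ G : Subgroup (GL (Fin 7) ℝ),
    IsHyperbolicManifoldGroup G ∧ HasEulerChar (Quot6 G) (-n) :=
  main

end Pool.Agent.Results.MP_cb21b9_gt.AllNegative
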